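import Pool.Agent.helper64.QF.Spec

/-!
# Project pq:, module MEA
-/

set_option autoImplicit false

namespace Pool.Agent.helper64.QF

open Metric MeasureTheory Set Filter Topology
open Pool.Agent.helper37.PR

/-- polarisation of the quadratic part. -/
theorem MEA_pol {n : ℕ} (h : E n → E n) (x : E n) :
    P2 h x = ∑ i, ∑ j, (x i * x j / 2) • (P2 h (EuclideanSpace.basisFun (Fin n) ℂ i + EuclideanSpace.basisFun (Fin n) ℂ j) -
      P2 h (EuclideanSpace.basisFun (Fin n) ℂ i) - P2 h (EuclideanSpace.basisFun (Fin n) ℂ j)) := by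
  obtain ⟨e, he⟩ : ∃ e : Fin n → E n, e = fun i => EuclideanSpace.basisFun (Fin n) ℂ i := ⟨_, rfl⟩
  have he' : ∀ i, EuclideanSpace.basisFun (Fin n) ℂ i = e i := fun i => by rw [he]
  simp only [he']
  obtain ⟨B, hB⟩ : ∃ B : E n →L[ℂ] E n →L[ℂ] E n, B = fderiv ℂ (fderiv ℂ h) 0 := ⟨_, rfl⟩
  have hP : ∀ y, P2 h y = (1 / 2 : ℂ) • B y y := by
    intro y
    unfold P2
    rw [iteratedFDeriv_two_apply, hB]
  have hx : x = ∑ i, x i • e i := by
    have h1 := (EuclideanSpace.basisFun (Fin n) ℂ).sum_repr x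
    simp only [he', EuclideanSpace.basisFun_repr] at h1
    exact h1.symm
  have hexp : B x x = ∑ i, ∑ j, (x i * x j) • B (e i) (e j) := by
    have h1 : ∀ y, B x y = ∑ i, x i • B (e i) y := by
      intro y
      conv_lhs => rw [hx]
      rw [map_sum, sum_apply]
      apply Finset.sum_congr rfl
      intro i _
      rw [map_smul, smul_apply]
    have h2 : ∀ y, B y x = ∑ j, x j • B y (e j) := by
      intro y
      conv_lhs => rw [hx]
      rw [map_sum]
      apply Finset.sum_congr rfl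
      intro i _
      rw [map_smul]
    rw [h1]
    apply Finset.sum_congr rfl
    intro i _
    rw [h2, Finset.smul_sum]
    apply Finset.sum_congr rfl
    intro j _
    rw [smul_smul]
  have hexp' : B x x = ∑ i, ∑ j, (x i * x j) • B (e j) (e i) := by
    rw [hexp, Finset.sum_comm]
    apply Finset.sum_congr rfl
    intro i _
    apply Finset.sum_congr rfl
    intro j _
    rw [mul_comm (x j) (x i)]
  have hterm : ∀ i j, (x i * x j / 2) • (P2 h (e i + e j) - P2 h (e i) - P2 h (e j)) =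
      (1 / 4 : ℂ) • ((x i * x j) • B (e i) (e j) + (x i * x j) • B (e j) (e i)) := by
    intro i j
    rw [hP, hP, hP]
    simp only [map_add, add_apply]
    module
  simp only [hterm]
  simp only [← Finset.smul_sum, Finset.sum_add_distrib]
  rw [← hexp, ← hexp', hP]
  module

/-- measurability in `t` of the quadratic part at a fixed point. -/
theorem MEA_fix {n : ℕ} (A : E n →L[ℂ] E n) (h : E n → ℝ → E n) (hh : IsHerglotz A h) (x : E n) :
    AEStronglyMeasurable (fun t : ℝ => P2 (fun z => h z t) x) (volume.restrict (Ioi (0 : ℝ))) := by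
  obtain ⟨r, hr⟩ : ∃ r : ℕ → ℝ, r = fun k : ℕ => 1 / ((k : ℝ) + 1 + ‖x‖) := ⟨_, rfl⟩
  have hr0 : ∀ k, 0 < r k := by
    intro k
    rw [hr]
    have := norm_nonneg x
    positivity
  have hr1 : ∀ k, r k * ‖x‖ < 1 := by
    intro k
    have h1 : 0 < (k : ℝ) + 1 + ‖x‖ := by
      have := norm_nonneg x
      positivity
    rw [hr]
    show 1 / ((k : ℝ) + 1 + ‖x‖) * ‖x‖ < 1
    rw [div_mul_eq_mul_div, div_lt_one h1, one_mul]
    have : (0 : ℝ) ≤ k := Nat.cast_nonneg k
    linarith
  have hrl : Tendsto r atTop (𝓝 0) := by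
    rw [hr]
    have h1 : Tendsto (fun k : ℕ => (k : ℝ) + 1 + ‖x‖) atTop atTop := by
      apply tendsto_atTop_add_const_right
      apply tendsto_atTop_add_const_right
      exact tendsto_natCast_atTop_atTop
    simp only [one_div]
    exact h1.inv_tendsto_atTop
  have hmem : ∀ (k : ℕ) (s : ℂ), ‖s‖ = 1 → (s * (r k : ℂ)) • x ∈ ball (0 : E n) 1 := by
    intro k s hs
    rw [mem_ball_zero_iff, norm_smul, norm_mul, hs, one_mul, Complex.norm_real, Real.norm_eq_abs, abs_of_pos (hr0 k)]
    exact hr1 k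
  have hms : ∀ z ∈ ball (0 : E n) 1, AEStronglyMeasurable (h z) (volume.restrict (Ioi (0 : ℝ))) := by
    intro z hz
    exact (hh.meas z hz).mono_measure (Measure.restrict_mono Ioi_subset_Ici_self le_rfl)
  apply aestronglyMeasurable_of_tendsto_ae (atTop : Filter ℕ)
    (f := fun k t => (1 / (2 * (r k : ℂ) ^ 2)) • (h ((1 * (r k : ℂ)) • x) t + h (((-1) * (r k : ℂ)) • x) t))
  · intro k
    exact ((hms _ (hmem k 1 (by simp))).add (hms _ (hmem k (-1) (by simp)))).const_smul (1 / (2 * (r k : ℂ) ^ 2))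
  · have h1 : ∀ᵐ t ∂(volume.restrict (Ioi (0 : ℝ))), IsCara A (fun z => h z t) := by
      rw [ae_restrict_iff' measurableSet_Ioi]
      filter_upwards [hh.cara] with t ht ht0
      exact ht (le_of_lt ht0)
    filter_upwards [h1] with t ht
    obtain ⟨g, hg⟩ : ∃ g : E n → E n, g = fun z => h z t := ⟨_, rfl⟩
    rw [← hg] at ht
    have hgt : ∀ z, h z t = g z := fun z => by rw [hg]
    simp only [hgt]
    have hgg : (fun z => g z) = g := rfl
    have h2 := taylor2 (ht.an 0 (mem_ball_self one_pos)) ht.zero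
    rw [ht.deriv] at h2
    obtain ⟨c, hc⟩ := h2.bound
    have h3 : ∀ s : ℂ, Tendsto (fun k => (s * (r k : ℂ)) • x) atTop (𝓝 0) := by
      intro s
      have e1 : Tendsto (fun k => (s * (r k : ℂ))) atTop (𝓝 0) := by
        have e2 : Tendsto (fun k => ((r k : ℝ) : ℂ)) atTop (𝓝 ((0 : ℝ) : ℂ)) := (Complex.continuous_ofReal.tendsto 0).comp hrl
        have e3 := e2.const_mul s
        simpa using e3
      have e4 := e1.smul_const x
      simpa using e4
    have h4 : Tendsto (fun k => (1 / (2 * (r k : ℂ) ^ 2)) • (g ((1 * (r k : ℂ)) • x) + g (((-1) * (r k : ℂ)) • x)) - P2 g x) atTop (𝓝 0) := by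
      apply squeeze_zero_norm' (a := fun k => c * r k * ‖x‖ ^ 3)
      · filter_upwards [(h3 1).eventually hc, (h3 (-1)).eventually hc] with k hk1 hk2
        have hrk : (r k : ℂ) ≠ 0 := by
          rw [Ne, Complex.ofReal_eq_zero]
          exact (hr0 k).ne'
        have e1 : (1 / (2 * (r k : ℂ) ^ 2)) • (g ((1 * (r k : ℂ)) • x) + g (((-1) * (r k : ℂ)) • x)) - P2 g x =
            (1 / (2 * (r k : ℂ) ^ 2)) • ((g ((1 * (r k : ℂ)) • x) - A ((1 * (r k : ℂ)) • x) - P2 g ((1 * (r k : ℂ)) • x)) +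
              (g (((-1) * (r k : ℂ)) • x) - A (((-1) * (r k : ℂ)) • x) - P2 g (((-1) * (r k : ℂ)) • x))) := by
          rw [P2_smul, P2_smul, map_smul, map_smul]
          have e2 : P2 g x = (1 / (2 * (r k : ℂ) ^ 2)) • ((2 * (r k : ℂ) ^ 2) • P2 g x) := by
            rw [smul_smul, one_div, inv_mul_cancel₀ (by simpa using hrk), one_smul]
          conv_lhs => rw [e2, ← smul_sub]
          congr 1
          module
        have e3 : ∀ s : ℂ, ‖s‖ = 1 → ‖(s * (r k : ℂ)) • x‖ = r k * ‖x‖ := by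
          intro s hs
          rw [norm_smul, norm_mul, hs, one_mul, Complex.norm_real, Real.norm_eq_abs, abs_of_pos (hr0 k)]
        rw [e3 1 (by simp)] at hk1
        rw [e3 (-1) (by simp)] at hk2
        have hp : 0 < r k := hr0 k
        have e4 : ‖(r k * ‖x‖) ^ 3‖ = r k ^ 3 * ‖x‖ ^ 3 := by
          rw [Real.norm_eq_abs, abs_of_nonneg (by positivity), mul_pow]
        rw [e4] at hk1 hk2
        have e5 : ‖(1 / (2 * (r k : ℂ) ^ 2))‖ = 1 / (2 * r k ^ 2) := by
          rw [norm_div, norm_mul, norm_pow, Complex.norm_real, Real.norm_eq_abs, abs_of_pos hp]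
          norm_num
        rw [e1, norm_smul, e5]
        calc 1 / (2 * r k ^ 2) * ‖(g ((1 * (r k : ℂ)) • x) - A ((1 * (r k : ℂ)) • x) - P2 g ((1 * (r k : ℂ)) • x)) +
              (g (((-1) * (r k : ℂ)) • x) - A (((-1) * (r k : ℂ)) • x) - P2 g (((-1) * (r k : ℂ)) • x))‖
            ≤ 1 / (2 * r k ^ 2) * (c * (r k ^ 3 * ‖x‖ ^ 3) + c * (r k ^ 3 * ‖x‖ ^ 3)) := by
              apply mul_le_mul_of_nonneg_left _ (by positivity)
              exact le_trans (norm_add_le _ _) (add_le_add hk1 hk2)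
          _ = c * r k * ‖x‖ ^ 3 := by
              field_simp
              ring
      · have e1 : Tendsto (fun k => c * r k * ‖x‖ ^ 3) atTop (𝓝 (c * 0 * ‖x‖ ^ 3)) := (hrl.const_mul c).mul_const _
        simpa using e1
    have h5 := h4.add_const (P2 g x)
    simpa using h5

theorem MEA (hLIN : LIN_stmt) : MEA_stmt := by
  intro n A m κ C hcls h hh U V
  obtain ⟨_, _, _, _, _, _, _, hcf, hcd, _⟩ := hLIN n A m κ C hcls U V
  apply AEStronglyMeasurable.inner
  · exact hcd.aestronglyMeasurable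
  · have h1 : (fun t : ℝ => P2 (fun z => h z t) (fw A U t)) = fun t : ℝ => ∑ i, ∑ j, (fw A U t i * fw A U t j / 2) •
        (P2 (fun z => h z t) (EuclideanSpace.basisFun (Fin n) ℂ i + EuclideanSpace.basisFun (Fin n) ℂ j) -
        P2 (fun z => h z t) (EuclideanSpace.basisFun (Fin n) ℂ i) - P2 (fun z => h z t) (EuclideanSpace.basisFun (Fin n) ℂ j)) := by
      funext t
      exact MEA_pol _ _
    rw [h1]
    apply Finset.aestronglyMeasurable_fun_sum
    intro i _
    apply Finset.aestronglyMeasurable_fun_sum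
    intro j _
    have hci : ∀ i, Continuous (fun t : ℝ => fw A U t i) := by
      intro i
      exact (EuclideanSpace.proj (𝕜 := ℂ) i).continuous.comp hcf
    have g1 : AEStronglyMeasurable (fun t : ℝ => fw A U t i * fw A U t j / 2) (volume.restrict (Ioi (0 : ℝ))) :=
      (((hci i).mul (hci j)).div_const 2).aestronglyMeasurable
    have g2 := ((MEA_fix A h hh (EuclideanSpace.basisFun (Fin n) ℂ i + EuclideanSpace.basisFun (Fin n) ℂ j)).sub
      (MEA_fix A h hh (EuclideanSpace.basisFun (Fin n) ℂ i))).sub (MEA_fix A h hh (EuclideanSpace.basisFun (Fin n) ℂ j))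
    exact g1.smul g2

end Pool.Agent.helper64.QF
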